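import Pool.Agent.H134.FV.I3
import Pool.Agent.H4.VG.Fo3

set_option autoImplicit false
set_option linter.unusedSectionVars false
set_option linter.unusedVariables false

/-! Inflations of elementary abelian groups: definability, and the leaf. -/

namespace Pool.Agent.H134.FV

open FirstOrder FirstOrder.Language
open Pool.Agent.W889.FO
open Pool.Agent.TH686.FO
open Pool.Agent.W889.FO.StA (FD.all1 FD.ex1)
open Pool.Agent.W889.FO.StE (LG gd)
open Pool.Agent.W889.VC (BP)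
open Pool.Agent.H4.VG hiding FA InP
open Pool.Agent.H4.FV
open Pool.Agent.N649.SV

section

variable {p : ℕ} {α : Type} {q r t : LR.Structure ℕ → (α → ℕ) → ℕ}

theorem ft_nl (hq : FT q) : FT (fun S v => nl p (ml S) (q S v)) := by
  refine (ft_wd (List.replicate p ()) hq (u := fun _ => q) (fun _ => hq)).congr fun S v => ?_
  rw [List.map_replicate]
  rfl

theorem fd_dm (hq : FT q) : FD St0.W (fun S v => dm p (ml S) (q S v)) :=
  (eqT (ft_nl hq) hq).and <|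
  FD.ex1 (P := fun S v x => ∃ y, x ≠ y ∧ x ≠ q S v ∧ y ≠ q S v ∧ nl p (ml S) x = q S v ∧
    nl p (ml S) y = q S v) <|
  FD.ex1 (P := fun S w y => w (Sum.inr ()) ≠ y ∧ w (Sum.inr ()) ≠ q S (fun i => w (Sum.inl i)) ∧
    y ≠ q S (fun i => w (Sum.inl i)) ∧
    nl p (ml S) (w (Sum.inr ())) = q S (fun i => w (Sum.inl i)) ∧
    nl p (ml S) y = q S (fun i => w (Sum.inl i))) <|
  (eqT (FT.var (Sum.inl (Sum.inr ()))) (FT.var (Sum.inr ()))).not.and <|
  (eqT (FT.var (Sum.inl (Sum.inr ()))) (hq.sub (fun i => Sum.inl (Sum.inl i)))).not.and <|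
  (eqT (FT.var (Sum.inr ())) (hq.sub (fun i => Sum.inl (Sum.inl i)))).not.and <|
  (eqT (ft_nl (FT.var (Sum.inl (Sum.inr ())))) (hq.sub (fun i => Sum.inl (Sum.inl i)))).and <|
  eqT (ft_nl (FT.var (Sum.inr ()))) (hq.sub (fun i => Sum.inl (Sum.inl i)))

theorem fd_rl (hq : FT q) (hr : FT r) :
    FD St0.W (fun S v => rl p (ml S) (q S v) (r S v)) :=
  (fd_dm hq).and <| (fd_dm hr).and <| (eqT hq hr).not.and <|
  FD.ex1 (P := fun S v x => x ≠ ml S (q S v) (r S v) ∧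
    nl p (ml S) x = ml S (q S v) (r S v)) <|
  (eqT (FT.var (Sum.inr ())) ((hq.mul hr).sub Sum.inl)).not.and <|
  eqT (ft_nl (FT.var (Sum.inr ()))) ((hq.mul hr).sub Sum.inl)

theorem ft_lc {n : ℕ} (c : Fin n → ℕ) (hq : FT q) {u : Fin n → LR.Structure ℕ → (α → ℕ) → ℕ}
    (hu : ∀ i, FT (u i)) : FT (fun S v => lc (ml S) (q S v) c (fun i => u i S v)) :=
  ft_wd (ls c) hq hu

end

/-- the axioms are first-order -/
theorem ax_FA (p : ℕ) : Ax (fun S : LR.Structure ℕ => St0.W S ∧ FA p (ml S)) := by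
  have h1 := axf (P := fun S => ∀ x y z, ml S (ml S x y) z = ml S x (ml S y z)) <|
    FD.all1 (P := fun S _ x => ∀ y z, ml S (ml S x y) z = ml S x (ml S y z)) <|
    FD.all1 (P := fun S w y => ∀ z, ml S (ml S (w (Sum.inr ())) y) z =
      ml S (w (Sum.inr ())) (ml S y z)) <|
    FD.all1 (P := fun S w z => ml S (ml S (w (Sum.inl (Sum.inr ()))) (w (Sum.inr ()))) z =
      ml S (w (Sum.inl (Sum.inr ()))) (ml S (w (Sum.inr ())) z)) <|
    eqT (((FT.var _).mul (FT.var _)).mul (FT.var _)) ((FT.var _).mul ((FT.var _).mul (FT.var _)))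
  have h2 := axf (P := fun S => ∀ x y, ml S x y = ml S y x) <|
    FD.all1 (P := fun S _ x => ∀ y, ml S x y = ml S y x) <|
    FD.all1 (P := fun S w y => ml S (w (Sum.inr ())) y = ml S y (w (Sum.inr ()))) <|
    eqT ((FT.var _).mul (FT.var _)) ((FT.var _).mul (FT.var _))
  have h3 := axf (P := fun S => ∃ e, ml S e e = e ∧ (∀ x y, ml S (ml S x y) e = ml S x y) ∧
      ∀ x, wd (ml S) e (List.replicate p x) = e) <|
    FD.ex1 (P := fun S _ e => ml S e e = e ∧ (∀ x y, ml S (ml S x y) e = ml S x y) ∧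
      ∀ x, wd (ml S) e (List.replicate p x) = e) <|
    (eqT ((FT.var _).mul (FT.var _)) (FT.var _)).and <| FD.and
    (FD.all1 (P := fun S w x => ∀ y, ml S (ml S x y) (w (Sum.inr ())) = ml S x y) <|
    FD.all1 (P := fun S w y => ml S (ml S (w (Sum.inr ())) y) (w (Sum.inl (Sum.inr ()))) =
      ml S (w (Sum.inr ())) y) <|
    eqT (((FT.var _).mul (FT.var _)).mul (FT.var _)) ((FT.var _).mul (FT.var _)))
    (FD.all1 (P := fun S w x => wd (ml S) (w (Sum.inr ())) (List.replicate p x) =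
      w (Sum.inr ())) <|
    eqT ((ft_wd (List.replicate p ()) (FT.var (Sum.inl (Sum.inr ())))
      (u := fun _ _ w => w (Sum.inr ())) (fun _ => FT.var _)).congr fun S v => by
        rw [List.map_replicate]) (FT.var _))
  have h4 := axf (P := fun S => ∀ w : Fin 4 → ℕ, (∀ i j, i ≠ j → w i ≠ w j) →
      ¬ ∀ i, nl p (ml S) (w i) = nl p (ml S) (w 0)) <|
    FD.all (P := fun S _ (w : Fin 4 → ℕ) => (∀ i j, i ≠ j → w i ≠ w j) →
      ¬ ∀ i, nl p (ml S) (w i) = nl p (ml S) (w 0)) <|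
    (FD.fin fun i => FD.fin fun j => (FD.const (i ≠ j)).imp
      (eqT (FT.var _) (FT.var _)).not).imp <|
    (FD.fin fun i => eqT (ft_nl (FT.var _)) (ft_nl (FT.var _))).not
  have h5 := Ax.all fun n : ℕ => Ax.all fun c : Co p n => axf (P := fun S =>
      ∀ (e : ℕ) (w : Fin n → ℕ), ml S e e = e → (∀ i, dm p (ml S) (w i)) →
        (∀ i j, i ≠ j → w i ≠ w j) → lc (ml S) e c.1 w ≠ e) <|
    FD.all1 (P := fun S _ e => ∀ (w : Fin n → ℕ), ml S e e = e → (∀ i, dm p (ml S) (w i)) →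
        (∀ i j, i ≠ j → w i ≠ w j) → lc (ml S) e c.1 w ≠ e) <|
    FD.all (P := fun S v w => ml S (v (Sum.inr ())) (v (Sum.inr ())) = (v (Sum.inr ())) →
      (∀ i, dm p (ml S) (w i)) → (∀ i j, i ≠ j → w i ≠ w j) →
        lc (ml S) (v (Sum.inr ())) c.1 w ≠ (v (Sum.inr ()))) <|
    (eqT ((FT.var _).mul (FT.var _)) (FT.var _)).imp <|
    (FD.fin fun i => fd_dm (FT.var _)).imp <|
    (FD.fin fun i => FD.fin fun j => (FD.const (i ≠ j)).imp
      (eqT (FT.var _) (FT.var _)).not).imp <|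
    (eqT (ft_lc c.1 (FT.var _) (u := fun i _ w => w (Sum.inr i)) (fun i => FT.var _))
      (FT.var _)).not
  have h6 := axf (P := fun S => ∀ s x, x ≠ s → nl p (ml S) x = s → nl p (ml S) s = s →
      ¬ dm p (ml S) s → ∃ d d', dm p (ml S) d ∧ dm p (ml S) d' ∧ d ≠ d' ∧ s = ml S d d') <|
    FD.all1 (P := fun S _ s => ∀ x, x ≠ s → nl p (ml S) x = s → nl p (ml S) s = s →
      ¬ dm p (ml S) s → ∃ d d', dm p (ml S) d ∧ dm p (ml S) d' ∧ d ≠ d' ∧ s = ml S d d') <|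
    FD.all1 (P := fun S w x => x ≠ w (Sum.inr ()) → nl p (ml S) x = w (Sum.inr ()) →
      nl p (ml S) (w (Sum.inr ())) = w (Sum.inr ()) → ¬ dm p (ml S) (w (Sum.inr ())) →
      ∃ d d', dm p (ml S) d ∧ dm p (ml S) d' ∧ d ≠ d' ∧ w (Sum.inr ()) = ml S d d') <|
    (eqT (FT.var _) (FT.var _)).not.imp <| (eqT (ft_nl (FT.var _)) (FT.var _)).imp <|
    (eqT (ft_nl (FT.var _)) (FT.var _)).imp <| (fd_dm (FT.var _)).not.imp <|
    FD.ex1 (P := fun S w d => ∃ d', dm p (ml S) d ∧ dm p (ml S) d' ∧ d ≠ d' ∧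
      w (Sum.inl (Sum.inr ())) = ml S d d') <|
    FD.ex1 (P := fun S w d' => dm p (ml S) (w (Sum.inr ())) ∧ dm p (ml S) d' ∧
      w (Sum.inr ()) ≠ d' ∧ w (Sum.inl (Sum.inl (Sum.inr ()))) = ml S (w (Sum.inr ())) d') <|
    (fd_dm (FT.var _)).and <| (fd_dm (FT.var _)).and <| (eqT (FT.var _) (FT.var _)).not.and <|
    eqT (FT.var _) ((FT.var _).mul (FT.var _))
  have h7 := Ax.all fun n : ℕ => axf (P := fun S => ∃ w : Fin n → ℕ, Function.Injective w ∧
      ∀ i, dm p (ml S) (w i)) <|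
    FD.ex (P := fun S _ w => Function.Injective w ∧ ∀ i, dm p (ml S) (w i)) <|
    (FD.inj _).and (FD.fin fun i => fd_dm (FT.var _))
  refine (h1.and (h2.and (h3.and (h4.and (h5.and (h6.and h7)))))).congr fun S => ?_
  constructor
  · rintro ⟨k1, k2, k3, k4, k5, k6, k7⟩
    exact ⟨k1.1, k1.2, k2.2, k3.2, k4.2, fun n c => (k5 n c).2, k6.2, fun n => (k7 n).2⟩
  · rintro ⟨hW, k⟩
    exact ⟨⟨hW, k.assoc⟩, ⟨hW, k.comm⟩, ⟨hW, k.unit⟩, ⟨hW, k.fib⟩, fun n c => ⟨hW, k.ind n c⟩,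
      ⟨hW, k.edge⟩, fun n => ⟨hW, k.inf n⟩⟩

section bp

variable {p : ℕ} {Y : Type} [MeasurableSpace Y] {f : Y → LR.Structure ℕ}

theorem bp_inP' (hb : ∀ (n : ℕ) (R : LR.Relations n) (a : Fin n → ℕ),
    BP (fun y => @Structure.RelMap LR ℕ (f y) n R a)) (hW : ∀ y, St0.W (f y)) {α : Type}
    {q : LR.Structure ℕ → (α → ℕ) → ℕ} (hq : FT q) (v : α → ℕ) :
    BP (fun y => InP p (ml (f y)) (q (f y) v)) := by
  unfold InP
  refine BP.ex fun e => (bp_idem hb hW e).and (BP.ex fun k => BP.ex fun u => ?_)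
  have h1 : FD St0.W (fun S (w : α ⊕ (Unit ⊕ Fin k) → ℕ) =>
      (∀ i, dm p (ml S) (w (Sum.inr (Sum.inr i)))) ∧
        nl p (ml S) (q S (fun i => w (Sum.inl i))) = wd (ml S) (w (Sum.inr (Sum.inl ())))
          (List.ofFn fun i => w (Sum.inr (Sum.inr i)))) :=
    (FD.fin fun i => fd_dm (FT.var _)).and <|
    eqT (ft_nl (hq.sub _)) (ft_wdFn (FT.var _) (u := fun i _ w => w (Sum.inr (Sum.inr i)))
      (fun i => FT.var _))
  exact h1.bp hb hW (Sum.elim v (Sum.elim (fun _ => e) u))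

theorem bp_Dd (hb : ∀ (n : ℕ) (R : LR.Relations n) (a : Fin n → ℕ),
    BP (fun y => @Structure.RelMap LR ℕ (f y) n R a)) (hW : ∀ y, St0.W (f y)) (n : ℕ) :
    BP (fun y => Dd p (ml (f y)) n) := by
  unfold Dd
  refine BP.ex fun e => (bp_idem hb hW e).and (BP.ex fun w => BP.all fun c => ?_)
  exact (bp_inP' hb hW (q := fun S (v : Unit ⊕ Fin n → ℕ) => lc (ml S) (v (Sum.inl ())) c.1
    (fun i => v (Sum.inr i)))
    (ft_lc c.1 (FT.var _) (u := fun i _ v => v (Sum.inr i)) (fun i => FT.var _))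
    (Sum.elim (fun _ => e) w)).not

end bp

/-- **I.** -/
theorem leaf_I : Lf_I := by
  intro p hp
  have : Fact p.Prime := ⟨hp⟩
  refine engineJ (J := Option ℕ) (FA p) (dm p) (rl p) (fun μ => fl (Dd p μ)) (ax_FA p)
    (fd_dm (FT.var _)) (fd_rl (FT.var _) (FT.var _)) ?_ ?_ ?_ ?_ ?_
  · intro μ h
    exact inf_of_card h.inf
  · intro μ μ' h h' τ hτ hj
    exact class_iso h h' τ hτ hj
  · intro f hb hW c
    exact bp_fl (bp_Dd hb fun y => (hW y).1) c
  · intro M hM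
    obtain ⟨μ, h1, π, h2⟩ := exists_mu p (gd M) hM.sd.symm hM.sd.irrefl
    exact ⟨μ, h1, π, h2⟩
  · intro μ h
    obtain ⟨G, hG, f, g, d⟩ := h.ds hp.pos
    exact ⟨G, hG, f, g, d.exp, d.fg, d.mul⟩

end Pool.Agent.H134.FV
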