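import Pool.Agent.H4.FV.Stm

set_option autoImplicit false
set_option linter.unusedSectionVars false
set_option linter.unusedVariables false

/-! Inflations of elementary abelian groups: the axioms and the algebra. -/

namespace Pool.Agent.H134.FV

open Pool.Agent.H4.VG (wd)

section ops

variable {α : Type} (p : ℕ) (μ : α → α → α)

/-- the power `x ^ (p + 1)` -/
def nl (x : α) : α := wd μ x (List.replicate p x)

/-- the vertices -/
def dm (d : α) : Prop :=
  nl p μ d = d ∧ ∃ x y, x ≠ y ∧ x ≠ d ∧ y ≠ d ∧ nl p μ x = d ∧ nl p μ y = d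

/-- the graph -/
def rl (d d' : α) : Prop :=
  dm p μ d ∧ dm p μ d' ∧ d ≠ d' ∧ ∃ x, x ≠ μ d d' ∧ nl p μ x = μ d d'

/-- the list of the indices with multiplicities `c` -/
noncomputable def ls {n : ℕ} (c : Fin n → ℕ) : List (Fin n) :=
  ((Finset.univ : Finset (Σ i, Fin (c i))).toList).map Sigma.fst

/-- linear combinations -/
noncomputable def lc {n : ℕ} (e : α) (c : Fin n → ℕ) (w : Fin n → α) : α :=
  wd μ e ((ls c).map w)

/-- coefficients -/
def Co (p n : ℕ) : Type := {c : Fin n → ℕ // ∃ i, ¬ p ∣ c i}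

instance (p n : ℕ) : Countable (Co p n) := by
  unfold Co
  infer_instance

/-- the axioms -/
structure FA : Prop where
  assoc : ∀ x y z, μ (μ x y) z = μ x (μ y z)
  comm : ∀ x y, μ x y = μ y x
  unit : ∃ e, μ e e = e ∧ (∀ x y, μ (μ x y) e = μ x y) ∧ ∀ x, wd μ e (List.replicate p x) = e
  fib : ∀ w : Fin 4 → α, (∀ i j, i ≠ j → w i ≠ w j) → ¬ ∀ i, nl p μ (w i) = nl p μ (w 0)
  ind : ∀ (n : ℕ) (c : Co p n) (e : α) (w : Fin n → α), μ e e = e → (∀ i, dm p μ (w i)) →
    (∀ i j, i ≠ j → w i ≠ w j) → lc μ e c.1 w ≠ e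
  edge : ∀ s x, x ≠ s → nl p μ x = s → nl p μ s = s → ¬ dm p μ s →
    ∃ d d', dm p μ d ∧ dm p μ d' ∧ d ≠ d' ∧ s = μ d d'
  inf : ∀ n : ℕ, ∃ w : Fin n → α, Function.Injective w ∧ ∀ i, dm p μ (w i)

/-- the span of the vertices -/
def InP (x : α) : Prop := ∃ e, μ e e = e ∧ ∃ (k : ℕ) (u : Fin k → α), (∀ i, dm p μ (u i)) ∧
  nl p μ x = wd μ e (List.ofFn u)

/-- the codimension is at least `n` -/
def Dd (n : ℕ) : Prop := ∃ e, μ e e = e ∧ ∃ w : Fin n → α,
  ∀ c : Co p n, ¬ InP p μ (lc μ e c.1 w)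

end ops

/-- inflations -/
structure DS (p : ℕ) {α : Type} (μ : α → α → α) (G : Type) [AddCommGroup G] (f : α → G)
    (g : G → α) : Prop where
  exp : ∀ a : G, p • a = 0
  fg : ∀ a, f (g a) = a
  mul : ∀ x y, μ x y = g (f x + f y)

/-- the fibre has two elements -/
def P2 {α G : Type} (f : α → G) (g : G → α) (v : G) : Prop := ∃ x, x ≠ g v ∧ f x = v

/-- the fibre has three elements -/
def P3 {α G : Type} (f : α → G) (g : G → α) (v : G) : Prop :=
  ∃ x y, x ≠ y ∧ x ≠ g v ∧ y ≠ g v ∧ f x = v ∧ f y = v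

section ds

variable {p : ℕ} {α : Type} {μ : α → α → α} {G : Type} [AddCommGroup G] {f : α → G} {g : G → α}

theorem DS.f_mul (h : DS p μ G f g) (x y : α) : f (μ x y) = f x + f y := by
  rw [h.mul, h.fg]

theorem DS.g_inj (h : DS p μ G f g) {a b : G} (hab : g a = g b) : a = b := by
  rw [← h.fg a, hab, h.fg]

theorem DS.idem (h : DS p μ G f g) {e : α} : μ e e = e ↔ e = g 0 := by
  constructor
  · intro he
    have h1 := h.f_mul e e
    rw [he] at h1
    have h2 : f e = 0 := by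
      have : f e + 0 = f e + f e := by rw [add_zero]; exact h1
      exact (add_left_cancel this).symm
    rw [← he, h.mul, h2, add_zero]
  · intro he
    rw [he, h.mul, h.fg, add_zero]

theorem DS.f_wd (h : DS p μ G f g) (e : α) (l : List α) :
    f (wd μ e l) = (l.map f).sum + f e := by
  induction l with
  | nil => simp [wd]
  | cons a l ih =>
    show f (μ a (wd μ e l)) = _
    rw [h.f_mul, ih, List.map_cons, List.sum_cons, add_assoc]

theorem DS.wd_eq (h : DS p μ G f g) (l : List α) :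
    wd μ (g 0) l = g ((l.map f).sum) := by
  cases l with
  | nil => simp [wd]
  | cons a l =>
    show μ a (wd μ (g 0) l) = _
    rw [h.mul, h.f_wd, h.fg, add_zero, List.map_cons, List.sum_cons]

theorem DS.nl_eq (h : DS p μ G f g) (hp : 0 < p) (x : α) : nl p μ x = g (f x) := by
  obtain ⟨q, rfl⟩ := Nat.exists_eq_succ_of_ne_zero hp.ne'
  unfold nl
  show μ x (wd μ x (List.replicate q x)) = _
  rw [h.mul, h.f_wd]
  congr 1
  have h1 := h.exp (f x)
  rw [List.map_replicate, List.sum_replicate]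
  have h2 : q • f x + f x = 0 := by
    rw [← succ_nsmul]
    exact h1
  rw [h2, add_zero]

theorem DS.dm_iff (h : DS p μ G f g) (hp : 0 < p) (d : α) :
    dm p μ d ↔ d = g (f d) ∧ P3 f g (f d) := by
  unfold dm P3
  simp only [h.nl_eq hp]
  constructor
  · rintro ⟨h1, x, y, h2, h3, h4, h5, h6⟩
    refine ⟨h1.symm, x, y, h2, ?_, ?_, ?_, ?_⟩
    · rw [h1]; exact h3
    · rw [h1]; exact h4
    · rw [← h5, h.fg]
    · rw [← h6, h.fg]
  · rintro ⟨h1, x, y, h2, h3, h4, h5, h6⟩
    rw [← h1] at h3 h4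
    refine ⟨h1.symm, x, y, h2, h3, h4, ?_, ?_⟩
    · rw [h5, ← h1]
    · rw [h6, ← h1]

theorem DS.dm_g (h : DS p μ G f g) (hp : 0 < p) (v : G) : dm p μ (g v) ↔ P3 f g v := by
  rw [h.dm_iff hp, h.fg]
  exact ⟨fun k => k.2, fun k => ⟨rfl, k⟩⟩

theorem DS.rl_iff (h : DS p μ G f g) (hp : 0 < p) (d d' : α) :
    rl p μ d d' ↔ dm p μ d ∧ dm p μ d' ∧ d ≠ d' ∧ P2 f g (f d + f d') := by
  unfold rl P2
  simp only [h.nl_eq hp, h.mul d d']
  refine and_congr Iff.rfl (and_congr Iff.rfl (and_congr Iff.rfl ?_))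
  refine exists_congr fun x => and_congr Iff.rfl ?_
  constructor
  · intro k
    exact h.g_inj k
  · intro k
    rw [k]

theorem ls_sum {n : ℕ} (c : Fin n → ℕ) (F : Fin n → G) :
    ((ls c).map F).sum = ∑ i, c i • F i := by
  unfold ls
  rw [List.map_map]
  have h1 := Finset.sum_map_toList (Finset.univ : Finset (Σ i, Fin (c i)))
    (fun s => F s.1)
  rw [show (F ∘ Sigma.fst : (Σ i, Fin (c i)) → G) = fun s => F s.1 from rfl, h1,
    Fintype.sum_sigma]
  refine Finset.sum_congr rfl fun i _ => ?_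
  simp

theorem DS.lc_eq (h : DS p μ G f g) {n : ℕ} (c : Fin n → ℕ) (w : Fin n → α) :
    lc μ (g 0) c w = g (∑ i, c i • f (w i)) := by
  unfold lc
  rw [h.wd_eq, List.map_map, ls_sum]
  rfl

end ds

/-- from the axioms to the group -/
theorem FA.ds {p : ℕ} (hp : 0 < p) {α : Type} {μ : α → α → α} (h : FA p μ) :
    ∃ (G : Type) (_ : AddCommGroup G) (f : α → G) (g : G → α), DS p μ G f g := by
  obtain ⟨e, he, hu, hx⟩ := h.unit
  obtain ⟨q, rfl⟩ := Nat.exists_eq_succ_of_ne_zero hp.ne'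
  have hmem : ∀ l : List α, μ (wd μ e l) e = wd μ e l := by
    intro l
    cases l with
    | nil => exact he
    | cons a l => exact hu _ _
  let A : Add {x : α // μ x e = x} := ⟨fun a b => ⟨μ a.1 b.1, hu _ _⟩⟩
  let Z : Zero {x : α // μ x e = x} := ⟨⟨e, he⟩⟩
  let N : Neg {x : α // μ x e = x} := ⟨fun a => ⟨wd μ e (List.replicate q a.1), hmem _⟩⟩
  let AG : AddGroup {x : α // μ x e = x} := AddGroup.ofLeftAxioms
    (fun a b c => Subtype.ext (h.assoc _ _ _))
    (fun a => Subtype.ext (by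
      show μ e a.1 = a.1
      rw [h.comm]
      exact a.2))
    (fun a => Subtype.ext (by
      show μ (wd μ e (List.replicate q a.1)) a.1 = e
      rw [h.comm]
      exact hx a.1))
  let AC : AddCommGroup {x : α // μ x e = x} :=
    { AG with add_comm := fun a b => Subtype.ext (h.comm _ _) }
  have hsm : ∀ (n : ℕ) (a : {x : α // μ x e = x}), (n • a).1 = wd μ e (List.replicate n a.1) := by
    intro n a
    induction n with
    | zero => rw [zero_nsmul]; rfl
    | succ n ih =>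
      rw [succ_nsmul']
      show μ a.1 (n • a).1 = _
      rw [ih]
      rfl
  refine ⟨{x : α // μ x e = x}, AC, fun x => ⟨μ x e, hu _ _⟩, Subtype.val, ?_, ?_, ?_⟩
  · intro a
    apply Subtype.ext
    rw [hsm]
    exact hx a.1
  · intro a
    exact Subtype.ext a.2
  · intro x y
    show μ x y = μ (μ x e) (μ y e)
    have e1 : μ (μ x e) (μ y e) = μ (μ x y) (μ e e) := by
      rw [h.assoc x e, ← h.assoc e y, h.comm e y, h.assoc y e, ← h.assoc x y]
    rw [e1, he, hu]

end Pool.Agent.H134.FV
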