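import Pool.Agent.H134.FV.I1

set_option autoImplicit false
set_option linter.unusedSectionVars false
set_option linter.unusedVariables false

/-! Inflations of elementary abelian groups: linear algebra and classification. -/

namespace Pool.Agent.H134.FV

open Pool.Agent.H4.VG (wd fl fl_eq)

section lin

variable {p : ℕ} [NeZero p] {G : Type} [AddCommGroup G] [Module (ZMod p) G]

theorem li_fin {n : ℕ} {v : Fin n → G} :
    LinearIndependent (ZMod p) v ↔ ∀ c : Co p n, ∑ i, c.1 i • v i ≠ 0 := by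
  rw [Fintype.linearIndependent_iff]
  constructor
  · rintro h ⟨c, i, hi⟩ h0
    have h1 := h (fun i => (c i : ZMod p)) (by
      rw [← h0]
      exact Finset.sum_congr rfl fun j _ => Nat.cast_smul_eq_nsmul (ZMod p) (c j) (v j)) i
    exact hi ((ZMod.natCast_eq_zero_iff _ _).1 h1)
  · intro h z hz i
    by_contra hne
    refine h ⟨fun i => (z i).val, i, ?_⟩ ?_
    · intro hd
      have h1 := (ZMod.natCast_eq_zero_iff _ _).2 hd
      rw [ZMod.natCast_zmod_val] at h1
      exact hne h1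
    · rw [← hz]
      refine Finset.sum_congr rfl fun j _ => ?_
      show (z j).val • v j = z j • v j
      rw [← Nat.cast_smul_eq_nsmul (ZMod p), ZMod.natCast_zmod_val]

theorem li_gen {ι : Type} {v : ι → G} : LinearIndependent (ZMod p) v ↔
    ∀ (n : ℕ) (e : Fin n → ι), Function.Injective e → LinearIndependent (ZMod p) (v ∘ e) := by
  constructor
  · intro h n e he
    exact h.comp e he
  · intro h
    rw [linearIndependent_iff_finset_linearIndependent]
    intro s
    let e : Fin s.card ≃ s := s.equivFin.symm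
    have h1 := h s.card (fun i => (e i : ι)) (fun i j hij => e.injective (Subtype.ext hij))
    exact (linearIndependent_equiv e (f := v ∘ (Subtype.val : s → ι))).1 h1

theorem spanp {A : Set G} {x : G} :
    x ∈ Submodule.span (ZMod p) A ↔ ∃ (n : ℕ) (u : Fin n → G), (∀ i, u i ∈ A) ∧ x = ∑ i, u i := by
  have hadd : ∀ a b : G, (∃ (n : ℕ) (u : Fin n → G), (∀ i, u i ∈ A) ∧ a = ∑ i, u i) →
      (∃ (n : ℕ) (u : Fin n → G), (∀ i, u i ∈ A) ∧ b = ∑ i, u i) →
      ∃ (n : ℕ) (u : Fin n → G), (∀ i, u i ∈ A) ∧ a + b = ∑ i, u i := by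
    rintro a b ⟨n, y, hy, rfl⟩ ⟨m, t, ht, rfl⟩
    refine ⟨n + m, Fin.append y t, fun i => ?_, ?_⟩
    · refine Fin.addCases (fun j => ?_) (fun j => ?_) i
      · rw [Fin.append_left]
        exact hy j
      · rw [Fin.append_right]
        exact ht j
    · rw [Fin.sum_univ_add]
      simp
  constructor
  · intro hx
    refine Submodule.span_induction (p := fun x _ => ∃ (n : ℕ) (u : Fin n → G),
      (∀ i, u i ∈ A) ∧ x = ∑ i, u i) ?_ ?_ ?_ ?_ hx
    · intro y hy
      exact ⟨1, fun _ => y, fun _ => hy, by simp⟩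
    · exact ⟨0, fun _ => 0, fun i => i.elim0, by simp⟩
    · intro a b _ _ ha hb
      exact hadd a b ha hb
    · intro c a _ ha
      rw [← ZMod.natCast_zmod_val c, Nat.cast_smul_eq_nsmul]
      induction c.val with
      | zero => exact ⟨0, fun _ => 0, fun i => i.elim0, by simp⟩
      | succ m ih =>
        rw [succ_nsmul]
        exact hadd _ _ ih ha
  · rintro ⟨n, u, h1, rfl⟩
    exact Submodule.sum_mem _ fun i _ => Submodule.subset_span (h1 i)

end lin

section rk

variable {p : ℕ} [Fact p.Prime]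

/-- the rank of a quotient -/
theorem le_rank {M : Type} [AddCommGroup M] [Module (ZMod p) M] (S : Submodule (ZMod p) M)
    (n : ℕ) : (n : Cardinal) ≤ Module.rank (ZMod p) (M ⧸ S) ↔
      ∃ w : Fin n → M, ∀ c : Co p n, ∑ i, c.1 i • w i ∉ S := by
  have key : ∀ w : Fin n → M, (∀ c : Co p n, ∑ i, c.1 i • w i ∉ S) ↔
      LinearIndependent (ZMod p) (fun i => (Submodule.Quotient.mk (w i) : M ⧸ S)) := by
    intro w
    rw [li_fin]
    refine forall_congr' fun c => ?_
    have h1 : ∑ i, c.1 i • (Submodule.Quotient.mk (w i) : M ⧸ S) = 0 ↔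
        ∑ i, c.1 i • w i ∈ S := by
      rw [← Submodule.Quotient.mk_eq_zero S]
      have : (Submodule.Quotient.mk (∑ i, c.1 i • w i) : M ⧸ S) =
          ∑ i, c.1 i • (Submodule.Quotient.mk (w i) : M ⧸ S) := by
        have h2 := map_sum S.mkQ (fun i => c.1 i • w i) Finset.univ
        simp only [map_nsmul] at h2
        exact h2
      rw [this]
    rw [ne_eq, h1]
  constructor
  · intro h
    obtain ⟨s, hs1, hs2⟩ := le_rank_iff_exists_linearIndependent_finset.1 h
    let e : Fin n ≃ s := (s.equivFinOfCardEq hs1).symm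
    choose w hw using fun x : M ⧸ S => Submodule.Quotient.mk_surjective S x
    refine ⟨fun i => w (e i), (key _).2 ?_⟩
    simp only [hw]
    exact hs2.comp e e.injective
  · rintro ⟨w, hw⟩
    have h1 := ((key w).1 hw).cardinal_lift_le_rank
    simpa using h1

/-- countable ranks are determined by the natural numbers below them -/
theorem rank_eq {M M' : Type} [AddCommGroup M] [Module (ZMod p) M] [AddCommGroup M']
    [Module (ZMod p) M'] [Countable M] [Countable M']
    (h : ∀ n : ℕ, (n : Cardinal) ≤ Module.rank (ZMod p) M ↔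
      (n : Cardinal) ≤ Module.rank (ZMod p) M') :
    Module.rank (ZMod p) M = Module.rank (ZMod p) M' := by
  have key : ∀ κ κ' : Cardinal.{0}, κ ≤ Cardinal.aleph0 → κ' ≤ Cardinal.aleph0 →
      (∀ n : ℕ, (n : Cardinal) ≤ κ → (n : Cardinal) ≤ κ') → κ ≤ κ' := by
    intro κ κ' h1 h2 h3
    rcases h1.lt_or_eq with h4 | h4
    · obtain ⟨m, rfl⟩ := Cardinal.lt_aleph0.1 h4
      exact h3 m le_rfl
    · rw [h4]
      refine Cardinal.aleph0_le.2 fun n => h3 n ?_
      rw [h4]
      exact (Cardinal.natCast_lt_aleph0).le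
  have h1 : Module.rank (ZMod p) M ≤ Cardinal.aleph0 :=
    (rank_le_card (ZMod p) M).trans (Cardinal.mk_le_aleph0_iff.2 inferInstance)
  have h2 : Module.rank (ZMod p) M' ≤ Cardinal.aleph0 :=
    (rank_le_card (ZMod p) M').trans (Cardinal.mk_le_aleph0_iff.2 inferInstance)
  exact le_antisymm (key _ _ h1 h2 fun n => (h n).1) (key _ _ h2 h1 fun n => (h n).2)

theorem rank_eqQ {M M' : Type} [AddCommGroup M] [Module (ZMod p) M] [AddCommGroup M']
    [Module (ZMod p) M'] [Countable M] [Countable M'] (S : Submodule (ZMod p) M)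
    (S' : Submodule (ZMod p) M')
    (h : ∀ n : ℕ, (n : Cardinal) ≤ Module.rank (ZMod p) (M ⧸ S) ↔
      (n : Cardinal) ≤ Module.rank (ZMod p) (M' ⧸ S')) :
    Module.rank (ZMod p) (M ⧸ S) = Module.rank (ZMod p) (M' ⧸ S') := by
  have := (Submodule.Quotient.mk_surjective S).countable
  have := (Submodule.Quotient.mk_surjective S').countable
  exact rank_eq h

end rk

/-- the semantic conditions -/
structure Sem (p : ℕ) {α G : Type} [AddCommGroup G] [Module (ZMod p) G] (f : α → G)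
    (g : G → α) : Prop where
  fib : ∀ w : Fin 4 → α, Function.Injective w → ¬ ∀ i, f (w i) = f (w 0)
  ind : LinearIndependent (ZMod p) (fun v : {v : G // P3 f g v} => (v : G))
  edge : ∀ v, P2 f g v → ¬ P3 f g v → ∃ a b, P3 f g a ∧ P3 f g b ∧ a ≠ b ∧ v = a + b
  inf : ∀ n : ℕ, ∃ w : Fin n → G, Function.Injective w ∧ ∀ i, P3 f g (w i)

section sem

variable {p : ℕ} [Fact p.Prime] {α : Type} {μ : α → α → α} {G : Type} [AddCommGroup G]
  [Module (ZMod p) G] {f : α → G} {g : G → α}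

theorem FA.sem (h : FA p μ) (d : DS p μ G f g) : Sem p f g := by
  have hp : 0 < p := (Fact.out : p.Prime).pos
  refine ⟨?_, ?_, ?_, ?_⟩
  · intro w hw hf
    refine h.fib w (fun i j hij he => hij (hw he)) fun i => ?_
    rw [d.nl_eq hp, d.nl_eq hp, hf i]
  · rw [li_gen]
    intro n e he
    rw [li_fin]
    intro c h0
    refine h.ind n c (g 0) (fun i => g (e i)) (d.idem.2 rfl) (fun i => (d.dm_g hp _).2 (e i).2)
      (fun i j hij hg => hij (he (Subtype.ext (d.g_inj hg)))) ?_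
    rw [d.lc_eq]
    congr 1
    refine Eq.trans (Finset.sum_congr rfl fun i _ => ?_) h0
    rw [d.fg]
    rfl
  · rintro v ⟨x, hx1, hx2⟩ h3
    obtain ⟨a, b, ha, hb, hab, he⟩ := h.edge (g v) x hx1 (by rw [d.nl_eq hp, hx2])
      (by rw [d.nl_eq hp, d.fg]) (fun hc => h3 ((d.dm_g hp v).1 hc))
    have ha' := (d.dm_iff hp a).1 ha
    have hb' := (d.dm_iff hp b).1 hb
    refine ⟨f a, f b, ha'.2, hb'.2, fun hc => hab ?_, ?_⟩
    · rw [ha'.1, hb'.1, hc]
    · rw [d.mul] at he
      exact d.g_inj he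
  · intro n
    obtain ⟨w, hw1, hw2⟩ := h.inf n
    refine ⟨fun i => f (w i), fun i j hij => hw1 ?_, fun i => ((d.dm_iff hp _).1 (hw2 i)).2⟩
    rw [((d.dm_iff hp _).1 (hw2 i)).1, ((d.dm_iff hp _).1 (hw2 j)).1]
    exact congrArg g hij

theorem Sem.fa (s : Sem p f g) (d : DS p μ G f g) : FA p μ := by
  have hp : 0 < p := (Fact.out : p.Prime).pos
  refine ⟨?_, ?_, ⟨g 0, d.idem.2 rfl, ?_, ?_⟩, ?_, ?_, ?_, ?_⟩
  · intro x y z
    rw [d.mul (μ x y), d.f_mul, d.mul x (μ y z), d.f_mul, add_assoc]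
  · intro x y
    rw [d.mul, d.mul, add_comm]
  · intro x y
    rw [d.mul (μ x y), d.f_mul, d.fg, add_zero, ← d.mul]
  · intro x
    rw [d.wd_eq, List.map_replicate, List.sum_replicate, d.exp]
  · intro w hw hf
    refine s.fib w (fun i j hij => ?_) fun i => ?_
    · by_contra hne
      exact hw i j hne hij
    · have h1 := hf i
      rw [d.nl_eq hp, d.nl_eq hp] at h1
      exact d.g_inj h1
  · intro n c e w he hw hne h0
    rw [d.idem.1 he, d.lc_eq] at h0
    have h1 := d.g_inj h0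
    have h2 := li_gen.1 s.ind n (fun i => ⟨f (w i), ((d.dm_iff hp _).1 (hw i)).2⟩) (by
      intro i j hij
      by_contra hn
      refine hne i j hn ?_
      rw [((d.dm_iff hp _).1 (hw i)).1, ((d.dm_iff hp _).1 (hw j)).1]
      exact congrArg g (congrArg Subtype.val hij))
    exact li_fin.1 h2 c h1
  · intro t x hx1 hx2 hx3 hx4
    rw [d.nl_eq hp] at hx2 hx3
    have h1 : f x = f t := by rw [← hx2, d.fg]
    have h3 : ¬ P3 f g (f t) := fun hc => hx4 ((d.dm_iff hp t).2 ⟨hx3.symm, hc⟩)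
    obtain ⟨a, b, ha, hb, hab, he⟩ := s.edge (f t) ⟨x, by rw [hx3]; exact hx1, h1⟩ h3
    refine ⟨g a, g b, (d.dm_g hp a).2 ha, (d.dm_g hp b).2 hb, fun hc => hab (d.g_inj hc), ?_⟩
    rw [d.mul, d.fg, d.fg, ← he, hx3]
  · intro n
    obtain ⟨w, hw1, hw2⟩ := s.inf n
    exact ⟨fun i => g (w i), fun i j hij => hw1 (d.g_inj hij), fun i => (d.dm_g hp _).2 (hw2 i)⟩

theorem inP_iff (d : DS p μ G f g) (x : α) :
    InP p μ x ↔ f x ∈ Submodule.span (ZMod p) {v | P3 f g v} := by
  have hp : 0 < p := (Fact.out : p.Prime).pos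
  rw [spanp]
  unfold InP
  constructor
  · rintro ⟨e, he, k, u, h1, h2⟩
    rw [d.idem.1 he, d.nl_eq hp, d.wd_eq] at h2
    refine ⟨k, fun i => f (u i), fun i => ((d.dm_iff hp _).1 (h1 i)).2, ?_⟩
    rw [d.g_inj h2, List.map_ofFn, List.sum_ofFn]
    rfl
  · rintro ⟨k, u, h1, h2⟩
    refine ⟨g 0, d.idem.2 rfl, k, fun i => g (u i), fun i => (d.dm_g hp _).2 (h1 i), ?_⟩
    rw [d.nl_eq hp, d.wd_eq, h2, List.map_ofFn, List.sum_ofFn]
    congr 1
    refine Finset.sum_congr rfl fun i _ => ?_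
    exact (d.fg _).symm

theorem Dd_iff (d : DS p μ G f g) (n : ℕ) : Dd p μ n ↔
    (n : Cardinal) ≤ Module.rank (ZMod p) (G ⧸ Submodule.span (ZMod p) {v | P3 f g v}) := by
  rw [le_rank]
  unfold Dd
  constructor
  · rintro ⟨e, he, w, h⟩
    refine ⟨fun i => f (w i), fun c hc => h c ?_⟩
    rw [d.idem.1 he, inP_iff d, d.lc_eq, d.fg]
    exact hc
  · rintro ⟨w, h⟩
    refine ⟨g 0, d.idem.2 rfl, fun i => g (w i), fun c hc => h c ?_⟩
    rw [inP_iff d, d.lc_eq, d.fg] at hc
    simpa only [d.fg] using hc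

end sem

/-- pointed sets with at most three elements -/
theorem fib_equiv {A A' : Type} (a : A) (a' : A') (hA : ∀ w : Fin 4 → A, ¬ Function.Injective w)
    (hA' : ∀ w : Fin 4 → A', ¬ Function.Injective w) (h2 : (∃ x, x ≠ a) ↔ ∃ x, x ≠ a')
    (h3 : (∃ x y, x ≠ y ∧ x ≠ a ∧ y ≠ a) ↔ ∃ x y, x ≠ y ∧ x ≠ a' ∧ y ≠ a') :
    ∃ e : A ≃ A', e a = a' := by
  classical
  have hfin : ∀ B : Type, (∀ w : Fin 4 → B, ¬ Function.Injective w) → Finite B := by
    intro B hB
    by_contra hinf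
    rw [not_finite_iff_infinite] at hinf
    exact hB (fun i => Infinite.natEmbedding B i)
      (fun i j hij => Fin.ext ((Infinite.natEmbedding B).injective hij))
  have := hfin A hA
  have := hfin A' hA'
  have := Fintype.ofFinite A
  have := Fintype.ofFinite A'
  have hcard : ∀ (B : Type) [Fintype B], (∀ w : Fin 4 → B, ¬ Function.Injective w) →
      Fintype.card B ≤ 3 := by
    intro B _ hB
    by_contra hc
    have h4 : Fintype.card (Fin 4) ≤ Fintype.card B := by
      rw [Fintype.card_fin]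
      omega
    obtain ⟨w⟩ := Function.Embedding.nonempty_of_card_le h4
    exact hB w w.injective
  have key : ∀ (B : Type) [Fintype B] (b : B), ((Finset.univ.erase b).card + 1 = Fintype.card B) ∧
      (0 < (Finset.univ.erase b).card ↔ ∃ x, x ≠ b) ∧
      (1 < (Finset.univ.erase b).card ↔ ∃ x y, x ≠ y ∧ x ≠ b ∧ y ≠ b) := by
    intro B _ b
    refine ⟨?_, ?_, ?_⟩
    · rw [Finset.card_erase_add_one (Finset.mem_univ b)]
      rfl
    · rw [Finset.card_pos]
      constructor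
      · rintro ⟨x, hx⟩
        exact ⟨x, (Finset.mem_erase.1 hx).1⟩
      · rintro ⟨x, hx⟩
        exact ⟨x, Finset.mem_erase.2 ⟨hx, Finset.mem_univ x⟩⟩
    · rw [Finset.one_lt_card]
      constructor
      · rintro ⟨x, hx, y, hy, hxy⟩
        exact ⟨x, y, hxy, (Finset.mem_erase.1 hx).1, (Finset.mem_erase.1 hy).1⟩
      · rintro ⟨x, y, hxy, hx, hy⟩
        exact ⟨x, Finset.mem_erase.2 ⟨hx, Finset.mem_univ x⟩, y,
          Finset.mem_erase.2 ⟨hy, Finset.mem_univ y⟩, hxy⟩
  obtain ⟨k1, k2, k3⟩ := key A a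
  obtain ⟨l1, l2, l3⟩ := key A' a'
  have c1 := hcard A hA
  have c2 := hcard A' hA'
  have m2 : 0 < (Finset.univ.erase a).card ↔ 0 < (Finset.univ.erase a').card :=
    k2.trans (h2.trans l2.symm)
  have m3 : 1 < (Finset.univ.erase a).card ↔ 1 < (Finset.univ.erase a').card :=
    k3.trans (h3.trans l3.symm)
  have hc : Fintype.card A = Fintype.card A' := by omega
  let e0 := Fintype.equivOfCardEq hc
  exact ⟨e0.trans (Equiv.swap (e0 a) a'), Equiv.swap_apply_left _ _⟩

section cls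

variable {p : ℕ} [Fact p.Prime]

theorem basisG {α G : Type} [AddCommGroup G] [Module (ZMod p) G] {f : α → G} {g : G → α}
    (h : LinearIndependent (ZMod p) (fun v : {v : G // P3 f g v} => (v : G))) {ι : Type}
    (bI : Module.Basis ι (ZMod p) (G ⧸ Submodule.span (ZMod p) {v | P3 f g v})) :
    ∃ b : Module.Basis ({v : G // P3 f g v} ⊕ ι) (ZMod p) G, ∀ x, b (Sum.inl x) = x := by
  have e : Submodule.span (ZMod p) (Set.range fun x : {v : G // P3 f g v} => (x : G)) =
      Submodule.span (ZMod p) {v | P3 f g v} := by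
    have e0 : (Set.range fun x : {v : G // P3 f g v} => (x : G)) = {v | P3 f g v} :=
      Subtype.range_coe_subtype
    rw [e0]
  let bS : Module.Basis {v : G // P3 f g v} (ZMod p) (Submodule.span (ZMod p) {v | P3 f g v}) :=
    (Module.Basis.span h).map (LinearEquiv.ofEq _ _ e)
  have hbS : ∀ x : {v : G // P3 f g v}, (bS x : G) = x := fun x => by
    simp [bS]
  refine ⟨Module.Basis.sumQuot bS bI, fun x => ?_⟩
  rw [Module.Basis.sumQuot_inl, hbS]

variable {α α' : Type} {μ : α → α → α} {μ' : α' → α' → α'} {G G' : Type} [AddCommGroup G]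
  [Module (ZMod p) G] [AddCommGroup G'] [Module (ZMod p) G'] {f : α → G} {g : G → α}
  {f' : α' → G'} {g' : G' → α'}

/-- vertices as vectors -/
def dE (d : DS p μ G f g) : {x // dm p μ x} ≃ {v : G // P3 f g v} where
  toFun x := ⟨f x.1, ((d.dm_iff (Fact.out : p.Prime).pos _).1 x.2).2⟩
  invFun v := ⟨g v.1, (d.dm_g (Fact.out : p.Prime).pos _).2 v.2⟩
  left_inv x := Subtype.ext ((d.dm_iff (Fact.out : p.Prime).pos _).1 x.2).1.symm
  right_inv v := Subtype.ext (d.fg _)

/-- **Classification.** -/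
theorem classify (d : DS p μ G f g) (s : Sem p f g) (d' : DS p μ' G' f' g') (s' : Sem p f' g')
    (τ : {x // dm p μ x} ≃ {x // dm p μ' x})
    (hτ : ∀ x y : {x // dm p μ x}, rl p μ' (τ x) (τ y) ↔ rl p μ x y)
    (hr : Module.rank (ZMod p) (G ⧸ Submodule.span (ZMod p) {v | P3 f g v}) =
      Module.rank (ZMod p) (G' ⧸ Submodule.span (ZMod p) {v | P3 f' g' v})) :
    ∃ σ : α ≃ α', ∀ a b, σ (μ a b) = μ' (σ a) (σ b) := by
  have hp : 0 < p := (Fact.out : p.Prime).pos
  let bI := Module.Basis.ofVectorSpace (ZMod p) (G ⧸ Submodule.span (ZMod p) {v | P3 f g v})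
  let bI' := Module.Basis.ofVectorSpace (ZMod p)
    (G' ⧸ Submodule.span (ZMod p) {v | P3 f' g' v})
  obtain ⟨eI⟩ : Nonempty (_ ≃ _) :=
    Cardinal.eq.1 ((bI.mk_eq_rank''.trans hr).trans bI'.mk_eq_rank''.symm)
  obtain ⟨b, hb⟩ := basisG s.ind bI
  obtain ⟨b', hb'⟩ := basisG s'.ind bI'
  let θ : {v : G // P3 f g v} ≃ {v : G' // P3 f' g' v} := ((dE d).symm.trans τ).trans (dE d')
  let φ : G ≃ₗ[ZMod p] G' := b.equiv b' (θ.sumCongr eI)
  have hφ : ∀ v : {v : G // P3 f g v}, φ v.1 = (θ v).1 := by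
    intro v
    have h1 : φ (b (Sum.inl v)) = b' (Sum.inl (θ v)) := by
      simp [φ]
    rw [hb, hb'] at h1
    exact h1
  have hP3 : ∀ v, P3 f g v ↔ P3 f' g' (φ v) := by
    intro v
    constructor
    · intro hv
      rw [hφ ⟨v, hv⟩]
      exact (θ ⟨v, hv⟩).2
    · intro hv
      have h1 := hφ (θ.symm ⟨φ v, hv⟩)
      rw [θ.apply_symm_apply] at h1
      have h2 := φ.injective h1
      rw [← h2]
      exact (θ.symm ⟨φ v, hv⟩).2
  have hab : ∀ a b : {v : G // P3 f g v}, a ≠ b →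
      (P2 f g (a.1 + b.1) ↔ P2 f' g' ((θ a).1 + (θ b).1)) := by
    intro a b hne
    have h1 := hτ ((dE d).symm a) ((dE d).symm b)
    rw [d.rl_iff hp, d'.rl_iff hp] at h1
    have e1 : f ((dE d).symm a).1 = a.1 := d.fg _
    have e2 : f ((dE d).symm b).1 = b.1 := d.fg _
    have e3 : f' (τ ((dE d).symm a)).1 = (θ a).1 := rfl
    have e4 : f' (τ ((dE d).symm b)).1 = (θ b).1 := rfl
    rw [e1, e2, e3, e4] at h1
    have n1 : ((dE d).symm a).1 ≠ ((dE d).symm b).1 := fun hc =>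
      hne ((dE d).symm.injective (Subtype.ext hc))
    have n2 : (τ ((dE d).symm a)).1 ≠ (τ ((dE d).symm b)).1 := fun hc =>
      hne ((dE d).symm.injective (τ.injective (Subtype.ext hc)))
    constructor
    · intro k
      exact (h1.2 ⟨((dE d).symm a).2, ((dE d).symm b).2, n1, k⟩).2.2.2
    · intro k
      exact (h1.1 ⟨(τ ((dE d).symm a)).2, (τ ((dE d).symm b)).2, n2, k⟩).2.2.2
  have h32 : ∀ {A B : Type} (f : A → B) (g : B → A) (v : B), P3 f g v → P2 f g v := by
    rintro A B f g v ⟨x, y, -, h1, -, h2, -⟩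
    exact ⟨x, h1, h2⟩
  have hP2 : ∀ v, P2 f g v ↔ P2 f' g' (φ v) := by
    intro v
    by_cases h3 : P3 f g v
    · exact iff_of_true (h32 f g v h3) (h32 f' g' _ ((hP3 v).1 h3))
    · constructor
      · intro h2
        obtain ⟨a, b, ha, hb, hne, rfl⟩ := s.edge v h2 h3
        have := (hab ⟨a, ha⟩ ⟨b, hb⟩ (fun hc => hne (congrArg Subtype.val hc))).1 h2
        rw [← hφ, ← hφ, ← map_add] at this
        exact this
      · intro h2
        obtain ⟨a, b, ha, hb, hne, he⟩ := s'.edge (φ v) h2 (fun hc => h3 ((hP3 v).2 hc))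
        have e1 : v = (θ.symm ⟨a, ha⟩).1 + (θ.symm ⟨b, hb⟩).1 := by
          apply φ.injective
          rw [map_add, hφ, hφ, θ.apply_symm_apply, θ.apply_symm_apply]
          exact he
        rw [e1]
        refine (hab _ _ (fun hc => hne (congrArg Subtype.val (θ.symm.injective hc)))).2 ?_
        rw [θ.apply_symm_apply, θ.apply_symm_apply]
        show P2 f' g' (a + b)
        rw [← he]
        exact h2
  -- the bijections of the fibres
  have hfib : ∀ v : G, ∃ e : {x // f x = v} ≃ {x // f' x = φ v},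
      e ⟨g v, d.fg v⟩ = ⟨g' (φ v), d'.fg (φ v)⟩ := by
    intro v
    refine fib_equiv _ _ ?_ ?_ ?_ ?_
    · intro w hw
      refine s.fib (fun i => (w i).1) (fun i j hij => hw (Subtype.ext hij)) fun i => ?_
      rw [(w i).2, (w 0).2]
    · intro w hw
      refine s'.fib (fun i => (w i).1) (fun i j hij => hw (Subtype.ext hij)) fun i => ?_
      rw [(w i).2, (w 0).2]
    · have a1 : (∃ x : {x // f x = v}, x ≠ ⟨g v, d.fg v⟩) ↔ P2 f g v := by
        constructor
        · rintro ⟨⟨x, hx⟩, hne⟩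
          exact ⟨x, fun hc => hne (Subtype.ext hc), hx⟩
        · rintro ⟨x, hne, hx⟩
          exact ⟨⟨x, hx⟩, fun hc => hne (congrArg Subtype.val hc)⟩
      have a2 : (∃ x : {x // f' x = φ v}, x ≠ ⟨g' (φ v), d'.fg (φ v)⟩) ↔ P2 f' g' (φ v) := by
        constructor
        · rintro ⟨⟨x, hx⟩, hne⟩
          exact ⟨x, fun hc => hne (Subtype.ext hc), hx⟩
        · rintro ⟨x, hne, hx⟩
          exact ⟨⟨x, hx⟩, fun hc => hne (congrArg Subtype.val hc)⟩
      rw [a1, a2]
      exact hP2 v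
    · have a1 : (∃ x y : {x // f x = v}, x ≠ y ∧ x ≠ ⟨g v, d.fg v⟩ ∧ y ≠ ⟨g v, d.fg v⟩) ↔
          P3 f g v := by
        constructor
        · rintro ⟨⟨x, hx⟩, ⟨y, hy⟩, h1, h2, h3⟩
          exact ⟨x, y, fun hc => h1 (Subtype.ext hc), fun hc => h2 (Subtype.ext hc),
            fun hc => h3 (Subtype.ext hc), hx, hy⟩
        · rintro ⟨x, y, h1, h2, h3, hx, hy⟩
          exact ⟨⟨x, hx⟩, ⟨y, hy⟩, fun hc => h1 (congrArg Subtype.val hc),
            fun hc => h2 (congrArg Subtype.val hc), fun hc => h3 (congrArg Subtype.val hc)⟩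
      have a2 : (∃ x y : {x // f' x = φ v}, x ≠ y ∧ x ≠ ⟨g' (φ v), d'.fg (φ v)⟩ ∧
          y ≠ ⟨g' (φ v), d'.fg (φ v)⟩) ↔ P3 f' g' (φ v) := by
        constructor
        · rintro ⟨⟨x, hx⟩, ⟨y, hy⟩, h1, h2, h3⟩
          exact ⟨x, y, fun hc => h1 (Subtype.ext hc), fun hc => h2 (Subtype.ext hc),
            fun hc => h3 (Subtype.ext hc), hx, hy⟩
        · rintro ⟨x, y, h1, h2, h3, hx, hy⟩
          exact ⟨⟨x, hx⟩, ⟨y, hy⟩, fun hc => h1 (congrArg Subtype.val hc),
            fun hc => h2 (congrArg Subtype.val hc), fun hc => h3 (congrArg Subtype.val hc)⟩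
      rw [a1, a2]
      exact hP3 v
  choose e he using hfib
  let σ : α ≃ α' := ((Equiv.sigmaFiberEquiv f).symm.trans
    (Equiv.sigmaCongr φ.toEquiv e)).trans (Equiv.sigmaFiberEquiv f')
  have hσ : ∀ (x : α) (v : G) (h : f x = v), σ x = (e v ⟨x, h⟩).1 := by
    intro x v h
    subst h
    rfl
  have hσf : ∀ x, f' (σ x) = φ (f x) := by
    intro x
    rw [hσ x _ rfl]
    exact (e (f x) ⟨x, rfl⟩).2
  refine ⟨σ, fun a b => ?_⟩
  rw [d.mul, d'.mul, hσf, hσf, hσ _ _ (d.fg _), he, map_add]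

/-- the classification, with the invariant -/
theorem class_iso0 [Countable α] [Countable α'] (h : FA p μ) (h' : FA p μ')
    (d : DS p μ G f g) (d' : DS p μ' G' f' g')
    (τ : {x // dm p μ x} ≃ {x // dm p μ' x})
    (hτ : ∀ x y : {x // dm p μ x}, rl p μ' (τ x) (τ y) ↔ rl p μ x y)
    (hj : fl (Dd p μ) = fl (Dd p μ')) :
    ∃ σ : α ≃ α', ∀ a b, σ (μ a b) = μ' (σ a) (σ b) := by
  have hc : Countable G := Function.Injective.countable (f := g) fun a b => d.g_inj
  have hc' : Countable G' := Function.Injective.countable (f := g') fun a b => d'.g_inj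
  have mono : ∀ (κ : Cardinal.{0}) (n m : ℕ), n ≤ m → (m : Cardinal) ≤ κ → (n : Cardinal) ≤ κ :=
    fun κ n m hnm hm => le_trans (by exact_mod_cast hnm) hm
  have m1 : ∀ n m, n ≤ m → Dd p μ m → Dd p μ n := by
    intro n m hnm
    rw [Dd_iff d, Dd_iff d]
    exact mono _ n m hnm
  have m2 : ∀ n m, n ≤ m → Dd p μ' m → Dd p μ' n := by
    intro n m hnm
    rw [Dd_iff d', Dd_iff d']
    exact mono _ n m hnm
  refine classify d (h.sem d) d' (h'.sem d') τ hτ (rank_eqQ _ _ fun n => ?_)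
  rw [← Dd_iff d, ← Dd_iff d']
  exact fl_eq m1 m2 hj n

end cls

/-- the classification, with the invariant -/
theorem class_iso {p : ℕ} [Fact p.Prime] {α α' : Type} {μ : α → α → α} {μ' : α' → α' → α'}
    [Countable α] [Countable α'] (h : FA p μ) (h' : FA p μ')
    (τ : {x // dm p μ x} ≃ {x // dm p μ' x})
    (hτ : ∀ x y : {x // dm p μ x}, rl p μ' (τ x) (τ y) ↔ rl p μ x y)
    (hj : fl (Dd p μ) = fl (Dd p μ')) :
    ∃ σ : α ≃ α', ∀ a b, σ (μ a b) = μ' (σ a) (σ b) := by
  have hp : 0 < p := (Fact.out : p.Prime).pos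
  obtain ⟨G, _, f, g, d⟩ := h.ds hp
  obtain ⟨G', _, f', g', d'⟩ := h'.ds hp
  let _ : Module (ZMod p) G := AddCommGroup.zmodModule d.exp
  let _ : Module (ZMod p) G' := AddCommGroup.zmodModule d'.exp
  exact class_iso0 h h' d d' τ hτ hj

end Pool.Agent.H134.FV
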