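import Pool.Agent.H134.FV.I2

set_option autoImplicit false
set_option linter.unusedSectionVars false
set_option linter.unusedVariables false

/-! Inflations of elementary abelian groups: existence. -/

namespace Pool.Agent.H134.FV

open Pool.Agent.H4.VG (wd)

section fibres

variable {α G : Type} {m : G → ℕ} (E0 : α ≃ Σ a : G, Fin (m a)) (hm : ∀ a, 0 < m a)

/-- the class of an element -/
def ff (x : α) : G := (E0 x).1

/-- the representative -/
def gg (a : G) : α := E0.symm ⟨a, ⟨0, hm a⟩⟩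

theorem ff_symm (a : G) (j : Fin (m a)) : ff E0 (E0.symm ⟨a, j⟩) = a := by
  unfold ff
  rw [E0.apply_symm_apply]

theorem ff_ex {x : α} {v : G} (h : ff E0 x = v) : ∃ j : Fin (m v), x = E0.symm ⟨v, j⟩ := by
  subst h
  exact ⟨(E0 x).2, (E0.symm_apply_apply x).symm⟩

theorem gg_ne {v : G} {j : Fin (m v)} : E0.symm ⟨v, j⟩ ≠ gg E0 hm v ↔ 1 ≤ (j : ℕ) := by
  unfold gg
  rw [ne_eq, E0.symm.injective.eq_iff]
  constructor
  · intro h
    by_contra hj
    exact h (by
      have : j = ⟨0, hm v⟩ := Fin.ext (by simp; omega)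
      rw [this])
  · intro h hc
    have h1 := eq_of_heq (Sigma.mk.inj hc).2
    rw [h1] at h
    simp at h

theorem P2_iff (v : G) : P2 (ff E0) (gg E0 hm) v ↔ 2 ≤ m v := by
  constructor
  · rintro ⟨x, h1, h2⟩
    obtain ⟨j, rfl⟩ := ff_ex E0 h2
    have := (gg_ne E0 hm).1 h1
    have := j.2
    omega
  · intro h
    exact ⟨E0.symm ⟨v, ⟨1, by omega⟩⟩, (gg_ne E0 hm).2 le_rfl, ff_symm E0 _ _⟩

theorem P3_iff (v : G) : P3 (ff E0) (gg E0 hm) v ↔ 3 ≤ m v := by
  constructor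
  · rintro ⟨x, y, h0, h1, h2, h3, h4⟩
    obtain ⟨j, rfl⟩ := ff_ex E0 h3
    obtain ⟨k, rfl⟩ := ff_ex E0 h4
    have k1 := (gg_ne E0 hm).1 h1
    have k2 := (gg_ne E0 hm).1 h2
    have k3 : (j : ℕ) ≠ k := fun hc => h0 (by rw [Fin.ext hc])
    have := j.2
    have := k.2
    omega
  · intro h
    refine ⟨E0.symm ⟨v, ⟨1, by omega⟩⟩, E0.symm ⟨v, ⟨2, by omega⟩⟩, ?_,
      (gg_ne E0 hm).2 le_rfl, (gg_ne E0 hm).2 (by simp), ff_symm E0 _ _, ff_symm E0 _ _⟩
    intro hc
    have h1 := eq_of_heq (Sigma.mk.inj (E0.symm.injective hc)).2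
    exact absurd (congrArg Fin.val h1) (by simp)

theorem fib_le (h3 : ∀ a, m a ≤ 3) (w : Fin 4 → α) (hw : Function.Injective w) :
    ¬ ∀ i, ff E0 (w i) = ff E0 (w 0) := by
  intro h
  choose j hj using fun i => ff_ex E0 (h i)
  have hinj : Function.Injective j := by
    intro i k hik
    apply hw
    rw [hj i, hj k, hik]
  have := Fintype.card_le_of_injective j hinj
  rw [Fintype.card_fin, Fintype.card_fin] at this
  have := h3 (ff E0 (w 0))
  omega

end fibres

section space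

variable (p : ℕ) [Fact p.Prime]

/-- the vertices -/
noncomputable abbrev sg (u : ℕ) : ℕ →₀ ZMod p := Finsupp.single u 1

theorem sg_inj {u v : ℕ} (h : sg p u = sg p v) : u = v :=
  Finsupp.single_left_injective one_ne_zero h

theorem pair_at {u v : ℕ} (huv : u ≠ v) : (sg p u + sg p v) u = 1 ∧ (sg p u + sg p v) v = 1 := by
  rw [Finsupp.add_apply, Finsupp.add_apply, Finsupp.single_eq_same, Finsupp.single_eq_same,
    Finsupp.single_eq_of_ne huv, Finsupp.single_eq_of_ne huv.symm]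
  simp

theorem pair_ne {u v w : ℕ} (huv : u ≠ v) : sg p w ≠ sg p u + sg p v := by
  intro h
  have h1 := (pair_at p huv).1
  have h2 := (pair_at p huv).2
  rw [← h] at h1 h2
  have e1 : w = u := by
    by_contra hne
    rw [Finsupp.single_eq_of_ne (Ne.symm hne)] at h1
    exact zero_ne_one h1
  have e2 : w = v := by
    by_contra hne
    rw [Finsupp.single_eq_of_ne (Ne.symm hne)] at h2
    exact zero_ne_one h2
  exact huv (e1.symm.trans e2)

theorem pair_mem {u v x : ℕ} (h : (sg p u + sg p v) x ≠ 0) : x = u ∨ x = v := by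
  by_contra hne
  push Not at hne
  apply h
  rw [Finsupp.add_apply, Finsupp.single_eq_of_ne hne.1, Finsupp.single_eq_of_ne hne.2, add_zero]

theorem pair_eq {u v u' v' : ℕ} (huv : u ≠ v) (h : sg p u + sg p v = sg p u' + sg p v') :
    (u = u' ∧ v = v') ∨ (u = v' ∧ v = u') := by
  have h1 := (pair_at p huv).1
  have h2 := (pair_at p huv).2
  rw [h] at h1 h2
  have k1 := pair_mem p (by rw [h1]; exact one_ne_zero)
  have k2 := pair_mem p (by rw [h2]; exact one_ne_zero)
  omega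

open Classical in
/-- the sizes of the fibres -/
noncomputable def sz (E : ℕ → ℕ → Prop) (a : ℕ →₀ ZMod p) : ℕ :=
  if ∃ v, a = sg p v then 3 else if ∃ v w, E v w ∧ a = sg p v + sg p w then 2 else 1

theorem sz_pos (E : ℕ → ℕ → Prop) (a : ℕ →₀ ZMod p) : 0 < sz p E a := by
  unfold sz
  split_ifs <;> norm_num

theorem sz_le (E : ℕ → ℕ → Prop) (a : ℕ →₀ ZMod p) : sz p E a ≤ 3 := by
  unfold sz
  split_ifs <;> norm_num

theorem sz3 (E : ℕ → ℕ → Prop) (a : ℕ →₀ ZMod p) : 3 ≤ sz p E a ↔ ∃ v, a = sg p v := by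
  unfold sz
  split_ifs with h1 h2
  · simp [h1]
  · simp [h1]
  · simp [h1]

theorem sz2 (E : ℕ → ℕ → Prop) (a : ℕ →₀ ZMod p) : 2 ≤ sz p E a ↔
    (∃ v, a = sg p v) ∨ ∃ v w, E v w ∧ a = sg p v + sg p w := by
  unfold sz
  split_ifs with h1 h2
  · simp [h1]
  · simp [h1, h2]
  · simp [h1, h2]

theorem exists_mu (E : ℕ → ℕ → Prop) (hs : ∀ u v, E u v → E v u) (hi : ∀ u, ¬ E u u) :
    ∃ μ : ℕ → ℕ → ℕ, FA p μ ∧ ∃ π : ℕ ≃ {x // dm p μ x},
      ∀ u v, rl p μ (π u) (π v) ↔ E u v := by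
  have hp : 0 < p := (Fact.out : p.Prime).pos
  have hinf : Infinite (Σ a : ℕ →₀ ZMod p, Fin (sz p E a)) :=
    Infinite.of_injective (fun u : ℕ => (⟨sg p u, ⟨0, sz_pos p E _⟩⟩ :
      Σ a : ℕ →₀ ZMod p, Fin (sz p E a))) fun u v h => sg_inj p (congrArg Sigma.fst h)
  obtain ⟨E0⟩ := nonempty_equiv_of_countable (α := ℕ)
    (β := Σ a : ℕ →₀ ZMod p, Fin (sz p E a))
  let f := ff E0
  let g := gg E0 (sz_pos p E)
  have d : DS p (fun x y => g (f x + f y)) (ℕ →₀ ZMod p) f g := by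
    refine ⟨fun a => ?_, fun a => ff_symm E0 _ _, fun x y => rfl⟩
    ext i
    rw [Finsupp.smul_apply, nsmul_eq_mul, CharP.cast_eq_zero, zero_mul]
    rfl
  have h3 : ∀ v, P3 f g v ↔ ∃ u, v = sg p u := fun v =>
    (P3_iff E0 (sz_pos p E) v).trans (sz3 p E v)
  have h2 : ∀ v, P2 f g v ↔ (∃ u, v = sg p u) ∨ ∃ u w, E u w ∧ v = sg p u + sg p w := fun v =>
    (P2_iff E0 (sz_pos p E) v).trans (sz2 p E v)
  have s : Sem p f g := by
    refine ⟨fib_le E0 (sz_le p E), ?_, ?_, ?_⟩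
    · choose u hu using fun v : {v // P3 f g v} => (h3 v.1).1 v.2
      have hinj : Function.Injective u := by
        intro v w hvw
        apply Subtype.ext
        rw [hu v, hu w, hvw]
      have h1 := (Finsupp.basisSingleOne (R := ZMod p) (ι := ℕ)).linearIndependent.comp u hinj
      have h4 : (fun v : {v // P3 f g v} => (v : ℕ →₀ ZMod p)) =
          (Finsupp.basisSingleOne (R := ZMod p) (ι := ℕ)) ∘ u := by
        funext v
        rw [Function.comp, Finsupp.coe_basisSingleOne]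
        exact hu v
      rw [h4]
      exact h1
    · intro v k2 k3
      rcases (h2 v).1 k2 with hc | ⟨u, w, huw, rfl⟩
      · exact absurd ((h3 v).2 hc) k3
      · exact ⟨sg p u, sg p w, (h3 _).2 ⟨u, rfl⟩, (h3 _).2 ⟨w, rfl⟩, fun hc =>
          hi u (by have := sg_inj p hc; rw [← this] at huw; exact huw), rfl⟩
    · intro n
      exact ⟨fun i => sg p i, fun i j hij => Fin.ext (sg_inj p hij), fun i => (h3 _).2 ⟨_, rfl⟩⟩
  refine ⟨fun x y => g (f x + f y), s.fa d, ?_⟩
  let π0 : ℕ ≃ {v // P3 f g v} := Equiv.ofBijective (fun u => ⟨sg p u, (h3 _).2 ⟨u, rfl⟩⟩) (by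
    constructor
    · intro u v huv
      exact sg_inj p (congrArg Subtype.val huv)
    · rintro ⟨v, hv⟩
      obtain ⟨u, hu⟩ := (h3 v).1 hv
      exact ⟨u, Subtype.ext hu.symm⟩)
  refine ⟨π0.trans (dE d).symm, fun u v => ?_⟩
  rw [d.rl_iff hp]
  have e1 : ∀ u, f ((π0.trans (dE d).symm) u).1 = sg p u := fun u => d.fg _
  rw [e1, e1, h2]
  constructor
  · rintro ⟨-, -, hne, hc | ⟨a, b, hab, he⟩⟩
    · obtain ⟨w, hw⟩ := hc
      have huv : u ≠ v := by
        intro hc
        exact hne (by rw [hc])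
      exact absurd hw.symm (pair_ne p huv)
    · have huv : u ≠ v := by
        intro hc
        exact hne (by rw [hc])
      rcases pair_eq p huv he with ⟨rfl, rfl⟩ | ⟨rfl, rfl⟩
      · exact hab
      · exact hs _ _ hab
  · intro h
    refine ⟨((π0.trans (dE d).symm) u).2, ((π0.trans (dE d).symm) v).2, ?_,
      Or.inr ⟨u, v, h, rfl⟩⟩
    intro hc
    have := (π0.trans (dE d).symm).injective (Subtype.ext hc)
    rw [this] at h
    exact hi v h

end space

end Pool.Agent.H134.FV
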